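import Mathlib

namespace Pool.Agent.Work.MP_5980c2_co

open Finset Classical

section
variable {V : Type*} [Fintype V] (G : SimpleGraph V)

/-- number of vertices adjacent to neither `a` nor `b` -/
noncomputable def Non (a b : V) : Finset V := univ.filter (fun u => ¬ G.Adj a u ∧ ¬ G.Adj b u)

noncomputable def Nb (a : V) : Finset V := univ.filter (fun u => G.Adj a u)

noncomputable def D (a : V) : ℕ := (Nb G a).card

/-- hubs -/
noncomputable def H : Finset V := univ.filter (fun v => Fintype.card V ≤ 100 * D G v)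

noncomputable def hN (v : V) : ℕ := ((Nb G v).filter (fun u => u ∈ H G)).card
noncomputable def lN (v : V) : ℕ := ((Nb G v).filter (fun u => u ∉ H G)).card

lemma hl (v : V) : hN G v + lN G v = D G v := by
  unfold hN lN D
  exact Finset.card_filter_add_card_filter_not _

noncomputable def X0 : Finset V := univ.filter (fun v => v ∉ H G ∧ hN G v = 2 ∧ lN G v = 0)
noncomputable def X1 : Finset V := univ.filter (fun v => v ∉ H G ∧ hN G v = 2 ∧ lN G v = 1)
noncomputable def X : Finset V := univ.filter (fun v => v ∉ H G ∧ hN G v = 2 ∧ lN G v ≤ 1)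
noncomputable def W : Finset V := univ.filter (fun v => v ∉ H G ∧ 7 ≤ 2 * hN G v + lN G v)

lemma card_X : (X G).card = (X0 G).card + (X1 G).card := by
  unfold X X0 X1
  rw [← Finset.card_union_of_disjoint]
  · congr 1
    ext v
    simp only [mem_filter, mem_univ, true_and, mem_union]
    constructor
    · rintro ⟨h1, h2, h3⟩
      have : lN G v = 0 ∨ lN G v = 1 := by omega
      tauto
    · rintro (⟨h1, h2, h3⟩ | ⟨h1, h2, h3⟩) <;> refine ⟨h1, h2, by omega⟩
  · rw [Finset.disjoint_filter]
    rintro v _ ⟨_, _, h⟩ ⟨_, _, h'⟩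
    omega

lemma sum_D : ∑ v, D G v = 2 * G.edgeFinset.card := by
  have h := G.sum_degrees_eq_twice_card_edges
  rw [← h]
  apply Finset.sum_congr rfl
  intro v _
  unfold D Nb
  rw [← SimpleGraph.card_neighborFinset_eq_degree]
  congr 1
  ext u
  simp

lemma double : ∑ v ∈ (H G)ᶜ, hN G v = ∑ u ∈ H G, lN G u := by
  unfold hN lN Nb
  simp_rw [Finset.filter_filter]
  have := Finset.sum_card_bipartiteAbove_eq_sum_card_bipartiteBelow (s := (H G)ᶜ) (t := H G)
    (r := fun a b => G.Adj a b)
  unfold Finset.bipartiteAbove Finset.bipartiteBelow at this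
  convert this using 2
  · congr 1
    ext u
    simp only [mem_filter, mem_univ, true_and]
    tauto
  · congr 1
    ext u
    simp only [mem_filter, mem_univ, true_and, mem_compl]
    constructor
    · rintro ⟨h1, h2⟩; exact ⟨h2, h1.symm⟩
    · rintro ⟨h1, h2⟩; exact ⟨h2.symm, h1⟩

lemma sum_cost : ∑ v ∈ (H G)ᶜ, (2 * hN G v + lN G v) ≤ 2 * G.edgeFinset.card := by
  have h1 : ∑ v ∈ (H G)ᶜ, (2 * hN G v + lN G v)
      = ∑ v ∈ (H G)ᶜ, hN G v + ∑ v ∈ (H G)ᶜ, D G v := by
    rw [← Finset.sum_add_distrib]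
    apply Finset.sum_congr rfl
    intro v _
    have := hl G v
    omega
  rw [h1, double]
  have h2 : ∑ u ∈ H G, lN G u ≤ ∑ u ∈ H G, D G u := by
    apply Finset.sum_le_sum
    intro v _
    have := hl G v
    omega
  rw [← sum_D]
  rw [← Finset.sum_add_sum_compl (H G) (fun v => D G v)]
  omega

lemma card_H_le (hn : 0 < Fintype.card V)
    (hE : 100 * G.edgeFinset.card ≤ 241 * Fintype.card V) : (H G).card ≤ 482 := by
  have h1 : (H G).card * Fintype.card V ≤ ∑ v ∈ H G, 100 * D G v := by
    rw [← smul_eq_mul, ← Finset.sum_const]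
    apply Finset.sum_le_sum
    intro v hv
    unfold H at hv
    simpa using hv
  have h2 : ∑ v ∈ H G, 100 * D G v ≤ ∑ v, 100 * D G v :=
    Finset.sum_le_sum_of_subset (Finset.subset_univ _)
  rw [← Finset.mul_sum, ← Finset.mul_sum, sum_D] at h2
  rw [← Finset.mul_sum] at h1
  by_contra hc
  push Not at hc
  have : 483 * Fintype.card V ≤ (H G).card * Fintype.card V := Nat.mul_le_mul_right _ hc
  omega

variable (hdiam : ∀ u v : V, u = v ∨ G.Adj u v ∨ ∃ w, G.Adj u w ∧ G.Adj w v)

include hdiam in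
lemma reach (v : V) :
    100 * (univ.filter (fun u => ∀ w, w ∈ H G → G.Adj v w → ¬ G.Adj w u)).card
      ≤ 100 * (1 + D G v) + lN G v * Fintype.card V := by
  have hsub : univ.filter (fun u => ∀ w, w ∈ H G → G.Adj v w → ¬ G.Adj w u) ⊆
      ({v} ∪ Nb G v) ∪ ((Nb G v).filter (fun u => u ∉ H G)).biUnion (Nb G) := by
    intro u hu
    simp only [mem_filter, mem_univ, true_and] at hu
    simp only [mem_union, mem_singleton, mem_biUnion, mem_filter, Nb, mem_univ, true_and]
    rcases hdiam v u with h | h | ⟨w, hw1, hw2⟩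
    · left; left; exact h.symm
    · left; right; exact h
    · right
      refine ⟨w, ⟨hw1, ?_⟩, hw2⟩
      intro hwH
      exact hu w hwH hw1 hw2
  have h1 := Finset.card_le_card hsub
  have h2 := Finset.card_union_le ({v} ∪ Nb G v)
    (((Nb G v).filter (fun u => u ∉ H G)).biUnion (Nb G))
  have h3 := Finset.card_union_le ({v} : Finset V) (Nb G v)
  have h4 : (((Nb G v).filter (fun u => u ∉ H G)).biUnion (Nb G)).card ≤
      ∑ u ∈ (Nb G v).filter (fun u => u ∉ H G), (Nb G u).card := Finset.card_biUnion_le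
  have h5 : 100 * ∑ u ∈ (Nb G v).filter (fun u => u ∉ H G), (Nb G u).card
      ≤ lN G v * Fintype.card V := by
    rw [Finset.mul_sum]
    unfold lN
    rw [← smul_eq_mul (a := ((Nb G v).filter (fun u => u ∉ H G)).card), ← Finset.sum_const]
    apply Finset.sum_le_sum
    intro u hu
    simp only [mem_filter, H, mem_univ, true_and, not_le] at hu
    exact hu.2.le
  rw [Finset.card_singleton] at h3
  unfold D
  omega

noncomputable def A (v : V) : Finset V := (Nb G v).filter (fun u => u ∈ H G)

lemma Non_comm (a b : V) : Non G a b = Non G b a := by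
  unfold Non
  ext u
  simp only [mem_filter, mem_univ, true_and]
  tauto

lemma mem_A (v u : V) : u ∈ A G v ↔ G.Adj v u ∧ u ∈ H G := by
  simp [A, Nb]

/-- the pointwise counting for triples -/
lemma tri (a b c : V) : 2 * Fintype.card V ≤ D G a + D G b + D G c + (Non G a b).card
    + (Non G a c).card + (Non G b c).card := by
  have h : ∑ u : V, 2 ≤ ∑ u : V, ((if G.Adj a u then 1 else 0) + (if G.Adj b u then 1 else 0)
      + (if G.Adj c u then 1 else 0) + (if ¬ G.Adj a u ∧ ¬ G.Adj b u then 1 else 0)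
      + (if ¬ G.Adj a u ∧ ¬ G.Adj c u then 1 else 0)
      + (if ¬ G.Adj b u ∧ ¬ G.Adj c u then 1 else 0)) := by
    apply Finset.sum_le_sum
    intro u _
    by_cases h1 : G.Adj a u <;> by_cases h2 : G.Adj b u <;> by_cases h3 : G.Adj c u <;>
      simp [h1, h2, h3]
  simp only [Finset.sum_add_distrib, ← Finset.card_filter, Finset.sum_const, smul_eq_mul] at h
  unfold D Nb Non
  rw [Finset.card_univ] at h
  omega

lemma two (a b : V) : Fintype.card V + (univ.filter (fun u => G.Adj a u ∧ G.Adj b u)).card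
    = D G a + D G b + (Non G a b).card := by
  have h : ∑ u : V, (1 + (if G.Adj a u ∧ G.Adj b u then 1 else 0))
      = ∑ u : V, ((if G.Adj a u then 1 else 0) + (if G.Adj b u then 1 else 0)
      + (if ¬ G.Adj a u ∧ ¬ G.Adj b u then 1 else 0)) := by
    apply Finset.sum_congr rfl
    intro u _
    by_cases h1 : G.Adj a u <;> by_cases h2 : G.Adj b u <;> simp [h1, h2]
  simp only [Finset.sum_add_distrib, ← Finset.card_filter, Finset.sum_const, smul_eq_mul] at h
  unfold D Nb Non
  rw [Finset.card_univ] at h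
  omega

variable (m : ℕ) (hn : Fintype.card V = 5 * m + 3) (hm : 10000 ≤ m) (hdeg : ∀ v, D G v ≤ 3 * m + 1)
  (hE : 100 * G.edgeFinset.card ≤ 241 * Fintype.card V)

include hdiam hn hm hdeg in
lemma not_small (v : V) : ¬ (hN G v ≤ 1 ∧ lN G v ≤ 6) := by
  rintro ⟨h1, h2⟩
  have h3 := reach G hdiam v
  set R := univ.filter (fun u => ∀ w, w ∈ H G → G.Adj v w → ¬ G.Adj w u) with hR
  have hcov : (univ : Finset V) ⊆ R ∪ (A G v).biUnion (Nb G) := by
    intro u _
    rw [mem_union]
    by_cases hu : u ∈ R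
    · left; exact hu
    · right
      rw [hR] at hu
      simp only [mem_filter, mem_univ, true_and, not_forall] at hu
      obtain ⟨w, hw1, hw2, hw3⟩ := hu
      rw [mem_biUnion]
      refine ⟨w, ?_, ?_⟩
      · rw [mem_A]; exact ⟨hw2, hw1⟩
      · simp only [Nb, mem_filter, mem_univ, true_and]
        by_contra h
        exact hw3 h
  have h4 := Finset.card_le_card hcov
  have h5 := Finset.card_union_le R ((A G v).biUnion (Nb G))
  have h6 : ((A G v).biUnion (Nb G)).card ≤ ∑ u ∈ A G v, (Nb G u).card := Finset.card_biUnion_le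
  have h7 : ∑ u ∈ A G v, (Nb G u).card ≤ ∑ u ∈ A G v, (3 * m + 1) :=
    Finset.sum_le_sum (fun u _ => hdeg u)
  rw [Finset.sum_const, smul_eq_mul] at h7
  have h8 : (A G v).card = hN G v := rfl
  rw [h8] at h7
  have h9 := hl G v
  rw [Finset.card_univ] at h4
  have h10 : hN G v * (3 * m + 1) ≤ 1 * (3 * m + 1) := Nat.mul_le_mul_right _ h1
  have h11 : lN G v * Fintype.card V ≤ 6 * Fintype.card V := Nat.mul_le_mul_right _ h2
  omega

include hdiam hn hm hdeg in
lemma mem_X_of (v : V) (hv : v ∉ H G) (h : 2 * hN G v + lN G v ≤ 5) : v ∈ X G := by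
  have := not_small G hdiam m hn hm hdeg v
  simp only [X, mem_filter, mem_univ, true_and]
  refine ⟨hv, ?_, ?_⟩ <;> omega

include hdiam hn hm hdeg in
lemma star : 6 * Fintype.card V + (W G).card
    ≤ 2 * G.edgeFinset.card + 2 * (X0 G).card + (X1 G).card + 6 * (H G).card := by
  have h1 : ∑ v ∈ (H G)ᶜ, (6 + (if v ∈ W G then 1 else 0)) ≤
      ∑ v ∈ (H G)ᶜ, (2 * hN G v + lN G v + 2 * (if v ∈ X0 G then 1 else 0)
        + (if v ∈ X1 G then 1 else 0)) := by
    apply Finset.sum_le_sum
    intro v hv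
    rw [mem_compl] at hv
    have hns := not_small G hdiam m hn hm hdeg v
    by_cases hW : v ∈ W G
    · have : 7 ≤ 2 * hN G v + lN G v := by
        simp only [W, mem_filter, mem_univ, true_and] at hW
        exact hW.2
      simp only [hW, if_true]
      omega
    · have hW' : ¬ (7 ≤ 2 * hN G v + lN G v) := by
        intro h
        apply hW
        simp only [W, mem_filter, mem_univ, true_and]
        exact ⟨hv, h⟩
      by_cases h0 : v ∈ X0 G
      · have h0' := h0
        simp only [X0, mem_filter, mem_univ, true_and] at h0'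
        simp only [hW, h0, if_true, if_false]
        omega
      · by_cases h1 : v ∈ X1 G
        · have h1' := h1
          simp only [X1, mem_filter, mem_univ, true_and] at h1'
          simp only [hW, h0, h1, if_true, if_false]
          omega
        · have h0' : ¬ (hN G v = 2 ∧ lN G v = 0) := by
            intro h
            apply h0
            simp only [X0, mem_filter, mem_univ, true_and]
            exact ⟨hv, h⟩
          have h1' : ¬ (hN G v = 2 ∧ lN G v = 1) := by
            intro h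
            apply h1
            simp only [X1, mem_filter, mem_univ, true_and]
            exact ⟨hv, h⟩
          simp only [hW, h0, h1, if_false]
          omega
  have h2 := sum_cost G
  rw [Finset.sum_add_distrib, Finset.sum_const, smul_eq_mul] at h1
  rw [Finset.sum_add_distrib, Finset.sum_add_distrib, ← Finset.mul_sum] at h1
  have hW : ∑ v ∈ (H G)ᶜ, (if v ∈ W G then 1 else 0) = (W G).card := by
    rw [← Finset.card_filter]
    congr 1
    ext v
    simp only [mem_filter, mem_compl, W, mem_univ, true_and]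
    tauto
  have hX0 : ∑ v ∈ (H G)ᶜ, (if v ∈ X0 G then 1 else 0) = (X0 G).card := by
    rw [← Finset.card_filter]
    congr 1
    ext v
    simp only [mem_filter, mem_compl, X0, mem_univ, true_and]
    tauto
  have hX1 : ∑ v ∈ (H G)ᶜ, (if v ∈ X1 G then 1 else 0) = (X1 G).card := by
    rw [← Finset.card_filter]
    congr 1
    ext v
    simp only [mem_filter, mem_compl, X1, mem_univ, true_and]
    tauto
  rw [hW, hX0, hX1, Finset.card_compl] at h1
  have h3 : (H G).card ≤ Fintype.card V := Finset.card_le_univ _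
  omega

include hdiam in
lemma pairP (v : V) (hv : v ∈ X G) (a b : V) (ha : a ∈ A G v) (hb : b ∈ A G v) (hab : a ≠ b) :
    100 * (Non G a b).card ≤ 400 + Fintype.card V := by
  simp only [X, mem_filter, mem_univ, true_and] at hv
  obtain ⟨_, h2, h1⟩ := hv
  have hA : A G v = {a, b} := by
    symm
    apply Finset.eq_of_subset_of_card_le
    · intro u hu
      simp only [mem_insert, mem_singleton] at hu
      rcases hu with rfl | rfl
      · exact ha
      · exact hb
    · rw [Finset.card_pair hab]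
      have : (A G v).card = hN G v := rfl
      omega
  have h3 := reach G hdiam v
  have hsub : Non G a b ⊆ univ.filter (fun u => ∀ w, w ∈ H G → G.Adj v w → ¬ G.Adj w u) := by
    intro u hu
    simp only [Non, mem_filter, mem_univ, true_and] at hu ⊢
    intro w hw1 hw2
    have : w ∈ A G v := by rw [mem_A]; exact ⟨hw2, hw1⟩
    rw [hA] at this
    simp only [mem_insert, mem_singleton] at this
    rcases this with rfl | rfl
    · exact hu.1
    · exact hu.2
  have h4 := Finset.card_le_card hsub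
  have h5 := hl G v
  have h6 : lN G v * Fintype.card V ≤ 1 * Fintype.card V := Nat.mul_le_mul_right _ h1
  omega

lemma A_card (v : V) (hv : v ∈ X G) : (A G v).card = 2 := by
  simp only [X, mem_filter, mem_univ, true_and] at hv
  exact hv.2.1

lemma A_eq (v : V) (hv : v ∈ X G) (a b : V) (ha : a ∈ A G v) (hb : b ∈ A G v) (hab : a ≠ b) :
    A G v = {a, b} := by
  symm
  apply Finset.eq_of_subset_of_card_le
  · intro u hu
    simp only [mem_insert, mem_singleton] at hu
    rcases hu with rfl | rfl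
    · exact ha
    · exact hb
  · rw [Finset.card_pair hab, A_card G v hv]

include hn hm hdeg in
lemma triP (a b c : V) (h1 : 100 * (Non G a b).card ≤ 400 + Fintype.card V)
    (h2 : 100 * (Non G a c).card ≤ 400 + Fintype.card V)
    (h3 : 100 * (Non G b c).card ≤ 400 + Fintype.card V) : False := by
  have h := tri G a b c
  have ha := hdeg a
  have hb := hdeg b
  have hc := hdeg c
  omega

include hdiam hn hm hdeg hE in
lemma X_big : 118 * Fintype.card V ≤ 200 * (X G).card + 289200 := by
  have h1 := star G hdiam m hn hm hdeg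
  have h2 := card_H_le G (by omega) hE
  have h3 := card_X G
  omega

include hdiam hn hm hdeg hE in
lemma heavyP (a b : V) (h1 : 100 * (Non G a b).card ≤ 400 + Fintype.card V)
    (h2 : 100 * (X G).card ≤ 100 * (univ.filter (fun u => G.Adj a u ∧ G.Adj b u)).card
      + 3 * (400 + Fintype.card V)) : False := by
  have h := two G a b
  have ha := hdeg a
  have hb := hdeg b
  have hX := X_big G hdiam m hn hm hdeg hE
  omega

include hdiam hn hm hdeg hE in
lemma disj_aux (v v' z : V) (hv : v ∈ X G) (hv' : v' ∈ X G) (hz : z ∈ X G) (a b c d : V)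
    (hab : a ≠ b) (hcd : c ≠ d) (hac : a ≠ c) (had : a ≠ d) (hbc : b ≠ c)
    (ha : a ∈ A G v) (hb : b ∈ A G v) (hc : c ∈ A G v') (hd : d ∈ A G v')
    (haz : a ∈ A G z) (hcz : c ∈ A G z) : False := by
  have Pab := pairP G hdiam v hv a b ha hb hab
  have Pcd := pairP G hdiam v' hv' c d hc hd hcd
  have Pac := pairP G hdiam z hz a c haz hcz hac
  have haH : a ∈ H G := ((mem_A G _ _).1 ha).2
  have hbH : b ∈ H G := ((mem_A G _ _).1 hb).2
  have hcH : c ∈ H G := ((mem_A G _ _).1 hc).2
  have hdH : d ∈ H G := ((mem_A G _ _).1 hd).2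
  apply heavyP G hdiam m hn hm hdeg hE a c Pac
  have hsub : X G ⊆ ((univ.filter (fun u => G.Adj a u ∧ G.Adj c u)) ∪ Non G a b) ∪
      (Non G c d ∪ Non G a c) := by
    intro u hu
    by_contra hcon
    simp only [mem_union, Non, mem_filter, mem_univ, true_and, not_or, not_and, not_not] at hcon
    obtain ⟨⟨h1, h2⟩, h3, h4⟩ := hcon
    by_cases hau : G.Adj a u
    · have hcu : ¬ G.Adj c u := h1 hau
      have hdu := h3 hcu
      have haA : a ∈ A G u := (mem_A G _ _).2 ⟨hau.symm, haH⟩
      have hdA : d ∈ A G u := (mem_A G _ _).2 ⟨hdu.symm, hdH⟩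
      have Pad := pairP G hdiam u hu a d haA hdA had
      exact triP G m hn hm hdeg a c d Pac Pad Pcd
    · have hbu := h2 hau
      have hcu := h4 hau
      have hbA : b ∈ A G u := (mem_A G _ _).2 ⟨hbu.symm, hbH⟩
      have hcA : c ∈ A G u := (mem_A G _ _).2 ⟨hcu.symm, hcH⟩
      have Pbc := pairP G hdiam u hu b c hbA hcA hbc
      exact triP G m hn hm hdeg a b c Pab Pac Pbc
  have h1 := Finset.card_le_card hsub
  have h2 := Finset.card_union_le ((univ.filter (fun u => G.Adj a u ∧ G.Adj c u)) ∪ Non G a b)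
      (Non G c d ∪ Non G a c)
  have h3 := Finset.card_union_le (univ.filter (fun u => G.Adj a u ∧ G.Adj c u)) (Non G a b)
  have h4 := Finset.card_union_le (Non G c d) (Non G a c)
  omega

include hdiam hn hm hdeg hE in
lemma inter (v v' : V) (hv : v ∈ X G) (hv' : v' ∈ X G) : ∃ c, c ∈ A G v ∧ c ∈ A G v' := by
  by_contra hcon
  push Not at hcon
  obtain ⟨a, b, hab, hAv⟩ := Finset.card_eq_two.1 (A_card G v hv)
  obtain ⟨c, d, hcd, hAv'⟩ := Finset.card_eq_two.1 (A_card G v' hv')
  have ha : a ∈ A G v := by rw [hAv]; simp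
  have hb : b ∈ A G v := by rw [hAv]; simp
  have hc : c ∈ A G v' := by rw [hAv']; simp
  have hd : d ∈ A G v' := by rw [hAv']; simp
  have hac : a ≠ c := by rintro rfl; exact hcon _ ha hc
  have had : a ≠ d := by rintro rfl; exact hcon _ ha hd
  have hbc : b ≠ c := by rintro rfl; exact hcon _ hb hc
  have hbd : b ≠ d := by rintro rfl; exact hcon _ hb hd
  have haH : a ∈ H G := ((mem_A G _ _).1 ha).2
  have hbH : b ∈ H G := ((mem_A G _ _).1 hb).2
  have hcH : c ∈ H G := ((mem_A G _ _).1 hc).2
  have hdH : d ∈ H G := ((mem_A G _ _).1 hd).2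
  have Pab := pairP G hdiam v hv a b ha hb hab
  have Pcd := pairP G hdiam v' hv' c d hc hd hcd
  have hX := X_big G hdiam m hn hm hdeg hE
  have hex : ∃ z ∈ X G, z ∉ Non G a b ∪ Non G c d := by
    by_contra hcon2
    push Not at hcon2
    have h1 := Finset.card_le_card (show X G ⊆ Non G a b ∪ Non G c d from hcon2)
    have h2 := Finset.card_union_le (Non G a b) (Non G c d)
    omega
  obtain ⟨z, hz, hz2⟩ := hex
  simp only [mem_union, Non, mem_filter, mem_univ, true_and, not_or, not_and, not_not] at hz2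
  obtain ⟨hz3, hz4⟩ := hz2
  have toA : ∀ x, x ∈ H G → G.Adj x z → x ∈ A G z := fun x hx hxz =>
    (mem_A G _ _).2 ⟨hxz.symm, hx⟩
  by_cases haz : G.Adj a z
  · by_cases hcz : G.Adj c z
    · exact disj_aux G hdiam m hn hm hdeg hE v v' z hv hv' hz a b c d hab hcd hac had hbc
        ha hb hc hd (toA a haH haz) (toA c hcH hcz)
    · exact disj_aux G hdiam m hn hm hdeg hE v v' z hv hv' hz a b d c hab hcd.symm had hac hbd
        ha hb hd hc (toA a haH haz) (toA d hdH (hz4 hcz))
  · have hbz := hz3 haz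
    by_cases hcz : G.Adj c z
    · exact disj_aux G hdiam m hn hm hdeg hE v v' z hv hv' hz b a c d hab.symm hcd hbc hbd hac
        hb ha hc hd (toA b hbH hbz) (toA c hcH hcz)
    · exact disj_aux G hdiam m hn hm hdeg hE v v' z hv hv' hz b a d c hab.symm hcd.symm hbd hbc had
        hb ha hd hc (toA b hbH hbz) (toA d hdH (hz4 hcz))

include hdiam hn hm hdeg hE in
lemma center : ∃ o a b : V, o ≠ a ∧ o ≠ b ∧ a ≠ b ∧ (∃ v ∈ X G, o ∈ A G v ∧ a ∈ A G v) ∧
    (∃ v ∈ X G, o ∈ A G v ∧ b ∈ A G v) ∧ ∀ v ∈ X G, o ∈ A G v := by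
  have hX := X_big G hdiam m hn hm hdeg hE
  have hne : (X G).Nonempty := by
    rw [← Finset.card_pos]; omega
  obtain ⟨v, hv⟩ := hne
  obtain ⟨a, b, hab, hAv⟩ := Finset.card_eq_two.1 (A_card G v hv)
  have ha : a ∈ A G v := by rw [hAv]; simp
  have hb : b ∈ A G v := by rw [hAv]; simp
  have Pab := pairP G hdiam v hv a b ha hb hab
  have hex : ∃ v' ∈ X G, A G v' ≠ A G v := by
    by_contra hcon
    push Not at hcon
    apply heavyP G hdiam m hn hm hdeg hE a b Pab
    have : X G ⊆ univ.filter (fun u => G.Adj a u ∧ G.Adj b u) := by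
      intro u hu
      have h1 := hcon u hu
      simp only [mem_filter, mem_univ, true_and]
      constructor
      · have : a ∈ A G u := by rw [h1]; exact ha
        exact ((mem_A G _ _).1 this).1.symm
      · have : b ∈ A G u := by rw [h1]; exact hb
        exact ((mem_A G _ _).1 this).1.symm
    have := Finset.card_le_card this
    omega
  obtain ⟨v', hv', hne'⟩ := hex
  -- name the common element `o`
  have key : ∀ o x : V, o ≠ x → o ∈ A G v → x ∈ A G v → o ∈ A G v' →
      ∃ o a b : V, o ≠ a ∧ o ≠ b ∧ a ≠ b ∧ (∃ v ∈ X G, o ∈ A G v ∧ a ∈ A G v) ∧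
    (∃ v ∈ X G, o ∈ A G v ∧ b ∈ A G v) ∧ ∀ v ∈ X G, o ∈ A G v := by
    intro o x hox ho hx ho'
    have hAv1 := A_eq G v hv o x ho hx hox
    have hex2 : ∃ y ∈ A G v', y ≠ o := by
      by_contra hcon
      push Not at hcon
      have h1 : A G v' ⊆ {o} := by intro y hy; simp [hcon y hy]
      have h2 := Finset.card_le_card h1
      rw [A_card G v' hv'] at h2
      simp at h2
    obtain ⟨y, hy, hyo⟩ := hex2
    have hAv2 := A_eq G v' hv' o y ho' hy hyo.symm
    have hxy : x ≠ y := by
      rintro rfl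
      exact hne' (hAv2.trans hAv1.symm)
    refine ⟨o, x, y, hox, hyo.symm, hxy, ⟨v, hv, ho, hx⟩, ⟨v', hv', ho', hy⟩, ?_⟩
    intro u hu
    by_contra hou
    obtain ⟨c, hc1, hc2⟩ := inter G hdiam m hn hm hdeg hE u v hu hv
    obtain ⟨d, hd1, hd2⟩ := inter G hdiam m hn hm hdeg hE u v' hu hv'
    rw [hAv1] at hc2
    rw [hAv2] at hd2
    simp only [mem_insert, mem_singleton] at hc2 hd2
    have hcx : c = x := by
      rcases hc2 with rfl | h
      · exact absurd hc1 hou
      · exact h
    have hdy : d = y := by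
      rcases hd2 with rfl | h
      · exact absurd hd1 hou
      · exact h
    subst hcx hdy
    have P1 := pairP G hdiam u hu c d hc1 hd1 hxy
    have P2 := pairP G hdiam v hv o c ho hx hox
    have P3 := pairP G hdiam v' hv' o d ho' hy hyo.symm
    exact triP G m hn hm hdeg o c d P2 P3 P1
  obtain ⟨o, ho1, ho2⟩ := inter G hdiam m hn hm hdeg hE v v' hv hv'
  have ho1' := ho1
  rw [hAv] at ho1'
  simp only [mem_insert, mem_singleton] at ho1'
  rcases ho1' with rfl | rfl
  · exact key o b hab ho1 hb ho2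
  · exact key o a hab.symm ho1 ha ho2

include hdiam hn hm hdeg hE in
lemma W_small (o : V) (ho : ∀ v ∈ X G, o ∈ A G v) :
    100 * ((W G).card + (X1 G).card) ≤ 2 * Fintype.card V + 289200 := by
  have h1 := star G hdiam m hn hm hdeg
  have h2 := card_H_le G (by omega) hE
  have h3 := card_X G
  have h4 : (X G).card ≤ 3 * m + 1 := by
    refine le_trans (Finset.card_le_card ?_) (hdeg o)
    intro u hu
    simp only [Nb, mem_filter, mem_univ, true_and]
    exact ((mem_A G _ _).1 (ho u hu)).1.symm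
  omega

include hdiam hn hm hdeg hE in
lemma fourth (o a b : V) (hoa : o ≠ a) (hob : o ≠ b) (hab : a ≠ b)
    (h1 : ∃ v ∈ X G, o ∈ A G v ∧ a ∈ A G v) (h2 : ∃ v ∈ X G, o ∈ A G v ∧ b ∈ A G v)
    (ho : ∀ v ∈ X G, o ∈ A G v) : ∃ c, c ≠ o ∧ c ≠ a ∧ c ≠ b ∧ ∃ v ∈ X G, o ∈ A G v ∧ c ∈ A G v := by
  by_contra hcon
  push Not at hcon
  obtain ⟨v1, hv1, hv1o, hv1a⟩ := h1
  obtain ⟨v2, hv2, hv2o, hv2b⟩ := h2
  have Pa := pairP G hdiam v1 hv1 o a hv1o hv1a hoa
  have Pb := pairP G hdiam v2 hv2 o b hv2o hv2b hob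
  have h : ∑ u : V, ((if u ∈ X G then 1 else 0) + 2) ≤ ∑ u : V, ((if G.Adj a u then 1 else 0)
      + (if G.Adj b u then 1 else 0) + 2 * (if G.Adj o u then 1 else 0)
      + (if ¬ G.Adj o u ∧ ¬ G.Adj a u then 1 else 0)
      + (if ¬ G.Adj o u ∧ ¬ G.Adj b u then 1 else 0)) := by
    apply Finset.sum_le_sum
    intro u _
    by_cases hu : u ∈ X G
    · have hou := ho u hu
      have hou' : G.Adj o u := ((mem_A G _ _).1 hou).1.symm
      have hex2 : ∃ y ∈ A G u, y ≠ o := by
        by_contra hcon
        push Not at hcon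
        have h1 : A G u ⊆ {o} := by intro y hy; simp [hcon y hy]
        have h2 := Finset.card_le_card h1
        rw [A_card G u hu] at h2
        simp at h2
      obtain ⟨y, hy, hyo⟩ := hex2
      have hyu : G.Adj y u := ((mem_A G _ _).1 hy).1.symm
      have hyab : y = a ∨ y = b := by
        by_contra hyab
        push Not at hyab
        exact hcon y hyo hyab.1 hyab.2 u hu hou hy
      rcases hyab with rfl | rfl
      · simp only [hu, hou', hyu, if_true]; omega
      · simp only [hu, hou', hyu, if_true]; omega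
    · by_cases h1 : G.Adj o u <;> by_cases h2 : G.Adj a u <;> by_cases h3 : G.Adj b u <;>
        simp [hu, h1, h2, h3]
  simp only [Finset.sum_add_distrib, ← Finset.mul_sum, ← Finset.card_filter, Finset.sum_const,
    smul_eq_mul] at h
  have hX : (univ.filter (fun u => u ∈ X G)).card = (X G).card := by simp
  rw [hX, Finset.card_univ] at h
  have hXb := X_big G hdiam m hn hm hdeg hE
  have ha := hdeg a
  have hb := hdeg b
  have ho' := hdeg o
  unfold D Nb at ha hb ho'
  unfold Non at Pa Pb
  omega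

include hdiam hn hm hdeg hE in
lemma no_fifth (o a b c d : V) (hoa : o ≠ a) (hob : o ≠ b) (hoc : o ≠ c) (hod : o ≠ d)
    (hab : a ≠ b) (hac : a ≠ c) (had : a ≠ d) (hbc : b ≠ c) (hbd : b ≠ d) (hcd : c ≠ d)
    (h1 : ∃ v ∈ X G, o ∈ A G v ∧ a ∈ A G v) (h2 : ∃ v ∈ X G, o ∈ A G v ∧ b ∈ A G v)
    (h3 : ∃ v ∈ X G, o ∈ A G v ∧ c ∈ A G v) (h4 : ∃ v ∈ X G, o ∈ A G v ∧ d ∈ A G v)
    (ho : ∀ v ∈ X G, o ∈ A G v) : False := by
  obtain ⟨v1, hv1, hv1o, hv1a⟩ := h1
  obtain ⟨v2, hv2, hv2o, hv2b⟩ := h2
  obtain ⟨v3, hv3, hv3o, hv3c⟩ := h3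
  obtain ⟨v4, hv4, hv4o, hv4d⟩ := h4
  have Pa := pairP G hdiam v1 hv1 o a hv1o hv1a hoa
  have Pb := pairP G hdiam v2 hv2 o b hv2o hv2b hob
  have Pc := pairP G hdiam v3 hv3 o c hv3o hv3c hoc
  have Pd := pairP G hdiam v4 hv4 o d hv4o hv4d hod
  have haH : a ∈ H G := ((mem_A G _ _).1 hv1a).2
  have hbH : b ∈ H G := ((mem_A G _ _).1 hv2b).2
  have hcH : c ∈ H G := ((mem_A G _ _).1 hv3c).2
  have hdH : d ∈ H G := ((mem_A G _ _).1 hv4d).2
  have hsub : (univ : Finset V) ⊆ (Nb G o ∪ H G ∪ W G) ∪ (Non G o a ∪ Non G o b) ∪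
      (Non G o c ∪ Non G o d) := by
    intro u _
    by_contra hcon
    simp only [mem_union, Non, Nb, mem_filter, mem_univ, true_and, not_or, not_and, not_not] at hcon
    obtain ⟨⟨⟨⟨h1, h2⟩, h3⟩, h4, h5⟩, h6, h7⟩ := hcon
    have hau := h4 h1
    have hbu := h5 h1
    have hcu := h6 h1
    have hdu := h7 h1
    apply h3
    simp only [W, mem_filter, mem_univ, true_and]
    refine ⟨h2, ?_⟩
    have hsub : ({a, b, c, d} : Finset V) ⊆ A G u := by
      intro x hx
      simp only [mem_insert, mem_singleton] at hx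
      rw [mem_A]
      rcases hx with rfl | rfl | rfl | rfl
      · exact ⟨hau.symm, haH⟩
      · exact ⟨hbu.symm, hbH⟩
      · exact ⟨hcu.symm, hcH⟩
      · exact ⟨hdu.symm, hdH⟩
    have h8 := Finset.card_le_card hsub
    have h9 : ({a, b, c, d} : Finset V).card = 4 := by
      rw [Finset.card_insert_of_notMem, Finset.card_insert_of_notMem, Finset.card_pair hcd]
      · simp only [mem_insert, mem_singleton, not_or]; exact ⟨hbc, hbd⟩
      · simp only [mem_insert, mem_singleton, not_or]; exact ⟨hab, hac, had⟩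
    have h10 : (A G u).card = hN G u := rfl
    omega
  have h1 := Finset.card_le_card hsub
  have h2 := Finset.card_union_le ((Nb G o ∪ H G ∪ W G) ∪ (Non G o a ∪ Non G o b))
    (Non G o c ∪ Non G o d)
  have h3 := Finset.card_union_le (Nb G o ∪ H G ∪ W G) (Non G o a ∪ Non G o b)
  have h4 := Finset.card_union_le (Nb G o ∪ H G) (W G)
  have h5 := Finset.card_union_le (Nb G o) (H G)
  have h6 := Finset.card_union_le (Non G o a) (Non G o b)
  have h7 := Finset.card_union_le (Non G o c) (Non G o d)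
  have h8 := card_H_le G (by omega) hE
  have h9 := W_small G hdiam m hn hm hdeg hE o ho
  have h10 := hdeg o
  unfold D at h10
  rw [Finset.card_univ] at h1
  omega

include hdiam hn hm hdeg hE in
lemma exactY (o a b c : V) (hoa : o ≠ a) (hob : o ≠ b) (hoc : o ≠ c)
    (hab : a ≠ b) (hac : a ≠ c) (hbc : b ≠ c)
    (h1 : ∃ v ∈ X G, o ∈ A G v ∧ a ∈ A G v) (h2 : ∃ v ∈ X G, o ∈ A G v ∧ b ∈ A G v)
    (h3 : ∃ v ∈ X G, o ∈ A G v ∧ c ∈ A G v)
    (ho : ∀ v ∈ X G, o ∈ A G v) : ∃ u, ∀ w, G.Adj u w ↔ (w = a ∨ w = b ∨ w = c) := by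
  obtain ⟨v1, hv1, hv1o, hv1a⟩ := h1
  obtain ⟨v2, hv2, hv2o, hv2b⟩ := h2
  obtain ⟨v3, hv3, hv3o, hv3c⟩ := h3
  have Pa := pairP G hdiam v1 hv1 o a hv1o hv1a hoa
  have Pb := pairP G hdiam v2 hv2 o b hv2o hv2b hob
  have Pc := pairP G hdiam v3 hv3 o c hv3o hv3c hoc
  have haH : a ∈ H G := ((mem_A G _ _).1 hv1a).2
  have hbH : b ∈ H G := ((mem_A G _ _).1 hv2b).2
  have hcH : c ∈ H G := ((mem_A G _ _).1 hv3c).2
  by_contra hcon
  have hsub : (univ : Finset V) ⊆ (Nb G o ∪ H G ∪ W G) ∪ (Non G o a ∪ Non G o b) ∪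
      Non G o c := by
    intro u _
    by_contra hcon2
    simp only [mem_union, Non, Nb, mem_filter, mem_univ, true_and, not_or, not_and, not_not]
      at hcon2
    obtain ⟨⟨⟨⟨h1, h2⟩, h3⟩, h4, h5⟩, h6⟩ := hcon2
    have hau := h4 h1
    have hbu := h5 h1
    have hcu := h6 h1
    have hW : ¬ (7 ≤ 2 * hN G u + lN G u) := by
      intro h
      apply h3
      simp only [W, mem_filter, mem_univ, true_and]
      exact ⟨h2, h⟩
    have hsub : ({a, b, c} : Finset V) ⊆ A G u := by
      intro x hx
      simp only [mem_insert, mem_singleton] at hx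
      rw [mem_A]
      rcases hx with rfl | rfl | rfl
      · exact ⟨hau.symm, haH⟩
      · exact ⟨hbu.symm, hbH⟩
      · exact ⟨hcu.symm, hcH⟩
    have h9 : ({a, b, c} : Finset V).card = 3 := by
      rw [Finset.card_insert_of_notMem, Finset.card_pair hbc]
      simp only [mem_insert, mem_singleton, not_or]; exact ⟨hab, hac⟩
    have h8 := Finset.card_le_card hsub
    have h10 : (A G u).card = hN G u := rfl
    have h11 := hl G u
    have h12 : ({a, b, c} : Finset V) ⊆ Nb G u := by
      intro x hx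
      have := hsub hx
      rw [mem_A] at this
      simp only [Nb, mem_filter, mem_univ, true_and]
      exact this.1
    have h13 : ({a, b, c} : Finset V) = Nb G u := by
      apply Finset.eq_of_subset_of_card_le h12
      unfold D at h11
      omega
    apply hcon
    refine ⟨u, fun w => ?_⟩
    have : w ∈ Nb G u ↔ w ∈ ({a, b, c} : Finset V) := by rw [h13]
    simpa only [Nb, mem_filter, mem_univ, true_and, mem_insert, mem_singleton] using this
  have h1 := Finset.card_le_card hsub
  have h2 := Finset.card_union_le ((Nb G o ∪ H G ∪ W G) ∪ (Non G o a ∪ Non G o b))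
    (Non G o c)
  have h3 := Finset.card_union_le (Nb G o ∪ H G ∪ W G) (Non G o a ∪ Non G o b)
  have h4 := Finset.card_union_le (Nb G o ∪ H G) (W G)
  have h5 := Finset.card_union_le (Nb G o) (H G)
  have h6 := Finset.card_union_le (Non G o a) (Non G o b)
  have h8 := card_H_le G (by omega) hE
  have h9 := W_small G hdiam m hn hm hdeg hE o ho
  have h10 := hdeg o
  unfold D at h10
  rw [Finset.card_univ] at h1
  omega

include hdiam hn hm hdeg hE in
lemma exactX (o a b c : V) (hoa : o ≠ a) (hob : o ≠ b) (hoc : o ≠ c)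
    (h2 : ∃ v ∈ X G, o ∈ A G v ∧ b ∈ A G v) (h3 : ∃ v ∈ X G, o ∈ A G v ∧ c ∈ A G v)
    (ho : ∀ v ∈ X G, o ∈ A G v)
    (hall : ∀ y, y ≠ o → (∃ v ∈ X G, o ∈ A G v ∧ y ∈ A G v) → y = a ∨ y = b ∨ y = c) :
    ∃ u, ∀ w, G.Adj u w ↔ (w = o ∨ w = a) := by
  obtain ⟨v2, hv2, hv2o, hv2b⟩ := h2
  obtain ⟨v3, hv3, hv3o, hv3c⟩ := h3
  have Pb := pairP G hdiam v2 hv2 o b hv2o hv2b hob
  have Pc := pairP G hdiam v3 hv3 o c hv3o hv3c hoc
  by_contra hcon
  have h : ∑ u : V, ((if u ∈ X G then 1 else 0) + 2) ≤ ∑ u : V, ((if u ∈ X1 G then 1 else 0)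
      + (if G.Adj b u then 1 else 0)
      + (if G.Adj c u then 1 else 0) + 2 * (if G.Adj o u then 1 else 0)
      + (if ¬ G.Adj o u ∧ ¬ G.Adj b u then 1 else 0)
      + (if ¬ G.Adj o u ∧ ¬ G.Adj c u then 1 else 0)) := by
    apply Finset.sum_le_sum
    intro u _
    by_cases hu : u ∈ X G
    · have hou := ho u hu
      have hou' : G.Adj o u := ((mem_A G _ _).1 hou).1.symm
      have hex2 : ∃ y ∈ A G u, y ≠ o := by
        by_contra hcon
        push Not at hcon
        have h1 : A G u ⊆ {o} := by intro y hy; simp [hcon y hy]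
        have h2 := Finset.card_le_card h1
        rw [A_card G u hu] at h2
        simp at h2
      obtain ⟨y, hy, hyo⟩ := hex2
      have hyu : G.Adj y u := ((mem_A G _ _).1 hy).1.symm
      rcases hall y hyo ⟨u, hu, hou, hy⟩ with rfl | rfl | rfl
      · have hX1 : u ∈ X1 G := by
          by_contra hX1
          have hu' := hu
          simp only [X, mem_filter, mem_univ, true_and] at hu'
          obtain ⟨h4, h5, h6⟩ := hu'
          have h7 : lN G u = 0 := by
            have : ¬ (lN G u = 1) := by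
              intro h
              apply hX1
              simp only [X1, mem_filter, mem_univ, true_and]
              exact ⟨h4, h5, h⟩
            omega
          have h8 := hl G u
          have h9 : A G u ⊆ Nb G u := Finset.filter_subset _ _
          have h10 : A G u = Nb G u := by
            apply Finset.eq_of_subset_of_card_le h9
            have : (A G u).card = hN G u := rfl
            unfold D at h8
            omega
          have h11 := A_eq G u hu o y hou hy hyo.symm
          apply hcon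
          refine ⟨u, fun w => ?_⟩
          have : w ∈ Nb G u ↔ w ∈ ({o, y} : Finset V) := by rw [← h10, h11]
          simpa only [Nb, mem_filter, mem_univ, true_and, mem_insert, mem_singleton] using this
        simp only [hu, hou', hX1, if_true]; omega
      · simp only [hu, hou', hyu, if_true]; omega
      · simp only [hu, hou', hyu, if_true]; omega
    · by_cases h0 : u ∈ X1 G <;> by_cases h1 : G.Adj o u <;> by_cases h2 : G.Adj b u <;>
        by_cases h3 : G.Adj c u <;> simp [hu, h0, h1, h2, h3]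
  simp only [Finset.sum_add_distrib, ← Finset.mul_sum, ← Finset.card_filter, Finset.sum_const,
    smul_eq_mul] at h
  have hX : (univ.filter (fun u => u ∈ X G)).card = (X G).card := by simp
  have hX1 : (univ.filter (fun u => u ∈ X1 G)).card = (X1 G).card := by simp
  rw [hX, hX1, Finset.card_univ] at h
  have hXb := X_big G hdiam m hn hm hdeg hE
  have hb := hdeg b
  have hc := hdeg c
  have ho' := hdeg o
  have hW := W_small G hdiam m hn hm hdeg hE o ho
  unfold D Nb at hb hc ho'
  unfold Non at Pb Pc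
  omega

omit [Fintype V] in
include hdiam in
lemma cover2 (v x y : V) (hv : ∀ w, G.Adj v w ↔ (w = x ∨ w = y)) (u : V) :
    u = x ∨ u = y ∨ G.Adj x u ∨ G.Adj y u := by
  rcases hdiam v u with h | h | ⟨w, hw1, hw2⟩
  · subst h
    right; right; left
    exact ((hv x).2 (Or.inl rfl)).symm
  · rcases (hv u).1 h with h | h
    · left; exact h
    · right; left; exact h
  · rcases (hv w).1 hw1 with rfl | rfl
    · right; right; left; exact hw2
    · right; right; right; exact hw2

omit [Fintype V] in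
include hdiam in
lemma cover3 (v x y z : V) (hv : ∀ w, G.Adj v w ↔ (w = x ∨ w = y ∨ w = z)) (u : V) :
    u = x ∨ u = y ∨ u = z ∨ G.Adj x u ∨ G.Adj y u ∨ G.Adj z u := by
  rcases hdiam v u with h | h | ⟨w, hw1, hw2⟩
  · subst h
    right; right; right; left
    exact ((hv x).2 (Or.inl rfl)).symm
  · rcases (hv u).1 h with h | h | h
    · left; exact h
    · right; left; exact h
    · right; right; left; exact h
  · rcases (hv w).1 hw1 with rfl | rfl | rfl
    · right; right; right; left; exact hw2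
    · right; right; right; right; left; exact hw2
    · right; right; right; right; right; exact hw2

omit [Fintype V] in
lemma num (p1 p2 p3 p4 p5 p6 : Prop) (c1 : p2 ∨ p4) (c2 : p3 ∨ p5) (c3 : p1 ∨ p4)
    (c4 : p3 ∨ p6) (c5 : p1 ∨ p5) (c6 : p2 ∨ p6) (c7 : p1 ∨ p2 ∨ p3) :
    9 ≤ ((if p1 then 1 else 0) + (if p2 then 1 else 0) + (if p3 then 1 else 0))
      + (2 * (if p1 then 1 else 0) + (if p4 then 1 else 0) + (if p5 then 1 else 0))
      + (2 * (if p2 then 1 else 0) + (if p4 then 1 else 0) + (if p6 then 1 else 0))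
      + (2 * (if p3 then 1 else 0) + (if p5 then 1 else 0) + (if p6 then 1 else 0)) := by
  by_cases e1 : p1 <;> by_cases e2 : p2 <;> by_cases e3 : p3 <;>
    by_cases e4 : p4 <;> by_cases e5 : p5 <;> by_cases e6 : p6 <;>
    simp only [e1, e2, e3, e4, e5, e6, if_true, if_false, or_self, or_false, false_or] at * <;>
    norm_num

include hdiam hn hm hdeg in
lemma final (o a b c : V) (hoa : o ≠ a) (hob : o ≠ b) (hoc : o ≠ c)
    (hab : a ≠ b) (hac : a ≠ c) (hbc : b ≠ c)
    (ha : ∃ v, ∀ w, G.Adj v w ↔ (w = o ∨ w = a)) (hb : ∃ v, ∀ w, G.Adj v w ↔ (w = o ∨ w = b))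
    (hc : ∃ v, ∀ w, G.Adj v w ↔ (w = o ∨ w = c))
    (hy : ∃ v, ∀ w, G.Adj v w ↔ (w = a ∨ w = b ∨ w = c)) : False := by
  obtain ⟨va, hva⟩ := ha
  obtain ⟨vb, hvb⟩ := hb
  obtain ⟨vc, hvc⟩ := hc
  obtain ⟨vy, hvy⟩ := hy
  have ca := cover2 G hdiam va o a hva
  have cb := cover2 G hdiam vb o b hvb
  have cc := cover2 G hdiam vc o c hvc
  have cy := cover3 G hdiam vy a b c hvy
  let w : V → ℕ := fun u => 2 * (if G.Adj o u then 1 else 0) + (if G.Adj a u then 1 else 0)
    + (if G.Adj b u then 1 else 0) + (if G.Adj c u then 1 else 0)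
  have hsum : ∑ u : V, w u = 2 * D G o + D G a + D G b + D G c := by
    simp only [w, Finset.sum_add_distrib, ← Finset.mul_sum, ← Finset.card_filter]
    unfold D Nb
    rfl
  have hS : ∑ u ∈ ({o, a, b, c} : Finset V), w u = w o + w a + w b + w c := by
    rw [Finset.sum_insert, Finset.sum_insert, Finset.sum_insert, Finset.sum_singleton]
    · ring
    · simp [hbc]
    · simp [hab, hac]
    · simp [hoa, hob, hoc]
  have hScard : ({o, a, b, c} : Finset V).card = 4 := by
    rw [Finset.card_insert_of_notMem, Finset.card_insert_of_notMem, Finset.card_pair hbc]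
    · simp [hab, hac]
    · simp [hoa, hob, hoc]
  have hScomp : 3 * (Fintype.card V - 4) ≤ ∑ u ∈ ({o, a, b, c} : Finset V)ᶜ, w u := by
    rw [← hScard, ← Finset.card_compl, mul_comm, ← smul_eq_mul, ← Finset.sum_const]
    apply Finset.sum_le_sum
    intro u hu
    simp only [mem_compl, mem_insert, mem_singleton, not_or] at hu
    obtain ⟨h1, h2, h3, h4⟩ := hu
    have c1 := ca u
    have c2 := cb u
    have c3 := cc u
    have c4 := cy u
    simp only [h1, h2, h3, h4, false_or] at c1 c2 c3 c4
    simp only [w]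
    by_cases e1 : G.Adj o u <;> by_cases e2 : G.Adj a u <;> by_cases e3 : G.Adj b u <;>
      by_cases e4 : G.Adj c u <;> simp_all
  have hspec : 9 ≤ w o + w a + w b + w c := by
    have c1 := ((ca b).resolve_left hob.symm).resolve_left hab.symm
    have c2 := ((ca c).resolve_left hoc.symm).resolve_left hac.symm
    have c3 := ((cb a).resolve_left hoa.symm).resolve_left hab
    have c4 := ((cb c).resolve_left hoc.symm).resolve_left hbc.symm
    have c5 := ((cc a).resolve_left hoa.symm).resolve_left hac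
    have c6 := ((cc b).resolve_left hob.symm).resolve_left hbc
    have c7 := (((cy o).resolve_left hoa).resolve_left hob).resolve_left hoc
    have n0 : w o = (if G.Adj o a then 1 else 0) + (if G.Adj o b then 1 else 0)
        + (if G.Adj o c then 1 else 0) := by
      simp [w, G.adj_comm a o, G.adj_comm b o, G.adj_comm c o]
    have n1 : w a = 2 * (if G.Adj o a then 1 else 0) + (if G.Adj a b then 1 else 0)
        + (if G.Adj a c then 1 else 0) := by
      simp [w, G.adj_comm b a, G.adj_comm c a]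
    have n2 : w b = 2 * (if G.Adj o b then 1 else 0) + (if G.Adj a b then 1 else 0)
        + (if G.Adj b c then 1 else 0) := by
      simp [w, G.adj_comm c b]
    have n3 : w c = 2 * (if G.Adj o c then 1 else 0) + (if G.Adj a c then 1 else 0)
        + (if G.Adj b c then 1 else 0) := by
      simp [w]
    rw [G.adj_comm b a] at c3
    rw [G.adj_comm c a] at c5
    rw [G.adj_comm c b] at c6
    rw [G.adj_comm a o, G.adj_comm b o, G.adj_comm c o] at c7
    rw [n0, n1, n2, n3]
    exact num _ _ _ _ _ _ c1 c2 c3 c4 c5 c6 c7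
  have htot := Finset.sum_add_sum_compl ({o, a, b, c} : Finset V) w
  have d1 := hdeg o
  have d2 := hdeg a
  have d3 := hdeg b
  have d4 := hdeg c
  omega

include hdiam hn hm hdeg hE in
theorem contradiction : False := by
  obtain ⟨o, a, b, hoa, hob, hab, h1, h2, ho⟩ := center G hdiam m hn hm hdeg hE
  obtain ⟨c, hco, hca, hcb, h3⟩ := fourth G hdiam m hn hm hdeg hE o a b hoa hob hab h1 h2 ho
  have hall : ∀ y, y ≠ o → (∃ v ∈ X G, o ∈ A G v ∧ y ∈ A G v) → y = a ∨ y = b ∨ y = c := by
    intro y hyo hy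
    by_contra hcon
    push Not at hcon
    obtain ⟨e1, e2, e3⟩ := hcon
    exact no_fifth G hdiam m hn hm hdeg hE o a b c y hoa hob hco.symm hyo.symm hab hca.symm
      e1.symm hcb.symm e2.symm e3.symm h1 h2 h3 hy ho
  refine final G hdiam m hn hm hdeg o a b c hoa hob hco.symm hab hca.symm hcb.symm ?_ ?_ ?_ ?_
  · exact exactX G hdiam m hn hm hdeg hE o a b c hoa hob hco.symm h2 h3 ho hall
  · refine exactX G hdiam m hn hm hdeg hE o b a c hob hoa hco.symm h1 h3 ho ?_
    intro y hy1 hy2
    rcases hall y hy1 hy2 with h | h | h <;> tauto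
  · refine exactX G hdiam m hn hm hdeg hE o c a b hco.symm hoa hob h1 h2 ho ?_
    intro y hy1 hy2
    rcases hall y hy1 hy2 with h | h | h <;> tauto
  · exact exactY G hdiam m hn hm hdeg hE o a b c hoa hob hco.symm hab hca.symm hcb.symm h1 h2 h3 ho

end

end Pool.Agent.Work.MP_5980c2_co
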