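import Mathlib

namespace Pool.Agent.Work.MP_5980c2_co

open Set

lemma ncard_le_of_val {n : ℕ} (S : Set (Fin n)) (T : Finset ℕ) (h : ∀ v ∈ S, v.val ∈ T) :
    S.ncard ≤ T.card := by
  rw [← Set.ncard_coe_finset T]
  apply Set.ncard_le_ncard_of_injOn (fun v : Fin n => v.val)
  · intro v hv
    exact h v hv
  · intro a _ b _ hab
    exact Fin.ext hab

/-- parity graph -/
def par (n : ℕ) : SimpleGraph (Fin n) where
  Adj u v := u.val % 2 ≠ v.val % 2
  symm := ⟨fun _ _ h => h.symm⟩
  loopless := ⟨fun _ h => h rfl⟩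

lemma par_diam (n : ℕ) (hn : 5 ≤ n) (u v : Fin n) :
    u = v ∨ (par n).Adj u v ∨ ∃ w, (par n).Adj u w ∧ (par n).Adj w v := by
  by_cases h : u.val % 2 = v.val % 2
  · right; right
    by_cases h0 : u.val % 2 = 0
    · refine ⟨⟨1, by omega⟩, ?_, ?_⟩ <;> simp only [par, ne_eq] <;> omega
    · refine ⟨⟨0, by omega⟩, ?_, ?_⟩ <;> simp only [par, ne_eq] <;> omega
  · right; left; exact h

lemma par_deg (n : ℕ) (u : Fin n) : ((par n).neighborSet u).ncard ≤ (n + 1) / 2 := by
  have : ((par n).neighborSet u).ncard ≤ (Finset.range ((n + 1) / 2)).card := by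
    rw [← Set.ncard_coe_finset]
    apply Set.ncard_le_ncard_of_injOn (fun v : Fin n => v.val / 2)
    · intro v hv
      have := v.isLt
      simp only [Finset.coe_range, Set.mem_Iio]
      omega
    · intro a ha b hb hab
      have h1 : u.val % 2 ≠ a.val % 2 := ha
      have h2 : u.val % 2 ≠ b.val % 2 := hb
      simp only at hab
      apply Fin.ext
      omega
  simpa using this

/-- the half relation of the extremal graph -/
def R (k h v : ℕ) : Prop :=
  (h = 0 ∧ 1 ≤ v ∧ v < 4 + 3 * k) ∨ (h = 1 ∧ 4 ≤ v ∧ (v < 4 + k ∨ 4 + 3 * k ≤ v)) ∨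
  (h = 2 ∧ ((4 + k ≤ v ∧ v < 4 + 2 * k) ∨ 4 + 3 * k ≤ v)) ∨
  (h = 3 ∧ ((4 + 2 * k ≤ v ∧ v < 4 + 3 * k) ∨ 4 + 3 * k ≤ v))

def ext (k : ℕ) : SimpleGraph (Fin (5 * k + 5)) where
  Adj u v := R k u.val v.val ∨ R k v.val u.val
  symm := ⟨fun _ _ h => h.symm⟩
  loopless := ⟨fun v h => by
    have : R k v.val v.val := by rcases h with h | h <;> exact h
    unfold R at this
    omega⟩

def R' (k u v : ℕ) : Prop := R k u v ∨ R k v u

lemma diam_nat (k u v : ℕ) : u = v ∨ R' k u v ∨ (R' k u 0 ∧ R' k 0 v) ∨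
    (R' k u 1 ∧ R' k 1 v) ∨ (R' k u 2 ∧ R' k 2 v) ∨ (R' k u 3 ∧ R' k 3 v) := by
  -- classes
  have key : ∀ x : ℕ, (x = 0) ∨ ((x = 1 ∨ x = 2 ∨ x = 3) ∧ R' k x 0 ∧ R' k 0 x) ∨
      (4 ≤ x ∧ x < 4 + 3 * k ∧ R' k x 0 ∧ R' k 0 x ∧ ((R' k x 1 ∧ R' k 1 x) ∨
        (R' k x 2 ∧ R' k 2 x) ∨ (R' k x 3 ∧ R' k 3 x))) ∨
      (4 ≤ x ∧ 4 + 3 * k ≤ x ∧ R' k x 1 ∧ R' k 1 x ∧ R' k x 2 ∧ R' k 2 x ∧ R' k x 3 ∧ R' k 3 x) := by
    intro x
    by_cases h0 : x = 0
    · left; exact h0
    · right
      by_cases h1 : x < 4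
      · left
        unfold R' R
        omega
      · right
        by_cases h2 : x < 4 + 3 * k
        · left
          refine ⟨by omega, h2, ?_, ?_, ?_⟩
          · unfold R' R; omega
          · unfold R' R; omega
          · by_cases h3 : x < 4 + k
            · left; unfold R' R; omega
            · by_cases h4 : x < 4 + 2 * k
              · right; left; unfold R' R; omega
              · right; right; unfold R' R; omega
        · right
          unfold R' R; omega
  have h01 : R' k 0 1 ∧ R' k 1 0 := by unfold R' R; omega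
  have h02 : R' k 0 2 ∧ R' k 2 0 := by unfold R' R; omega
  have h03 : R' k 0 3 ∧ R' k 3 0 := by unfold R' R; omega
  rcases key u with hu | ⟨hu, hu'⟩ | hu | hu <;> rcases key v with hv | ⟨hv, hv'⟩ | hv | hv
  · left; omega
  · subst hu; right; left; exact hv'.2
  · subst hu; right; left; exact hv.2.2.2.1
  · subst hu; right; right; right; left; exact ⟨h01.1, hv.2.2.2.1⟩
  · subst hv; right; left; exact hu'.1
  · right; right; left; exact ⟨hu'.1, hv'.2⟩
  · right; right; left; exact ⟨hu'.1, hv.2.2.2.1⟩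
  · right; left
    rcases hu with rfl | rfl | rfl
    · exact hv.2.2.2.1
    · exact hv.2.2.2.2.2.1
    · exact hv.2.2.2.2.2.2.2
  · subst hv; right; left; exact hu.2.2.1
  · right; right; left; exact ⟨hu.2.2.1, hv'.2⟩
  · right; right; left; exact ⟨hu.2.2.1, hv.2.2.2.1⟩
  · obtain ⟨_, _, _, _, h | h | h⟩ := hu
    · right; right; right; left; exact ⟨h.1, hv.2.2.2.1⟩
    · right; right; right; right; left; exact ⟨h.1, hv.2.2.2.2.2.1⟩
    · right; right; right; right; right; exact ⟨h.1, hv.2.2.2.2.2.2.2⟩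
  · subst hv; right; right; right; left; exact ⟨hu.2.2.1, h01.2⟩
  · right; left
    rcases hv with rfl | rfl | rfl
    · exact hu.2.2.1
    · exact hu.2.2.2.2.1
    · exact hu.2.2.2.2.2.2.1
  · obtain ⟨_, _, _, _, h | h | h⟩ := hv
    · right; right; right; left; exact ⟨hu.2.2.1, h.2⟩
    · right; right; right; right; left; exact ⟨hu.2.2.2.2.1, h.2⟩
    · right; right; right; right; right; exact ⟨hu.2.2.2.2.2.2.1, h.2⟩
  · right; right; right; left; exact ⟨hu.2.2.1, hv.2.2.2.1⟩

lemma ext_diam (k : ℕ) (u v : Fin (5 * k + 5)) :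
    u = v ∨ (ext k).Adj u v ∨ ∃ w, (ext k).Adj u w ∧ (ext k).Adj w v := by
  rcases diam_nat k u.val v.val with h | h | h | h | h | h
  · left; exact Fin.ext h
  · right; left; exact h
  · right; right; exact ⟨⟨0, by omega⟩, h.1, h.2⟩
  · right; right; exact ⟨⟨1, by omega⟩, h.1, h.2⟩
  · right; right; exact ⟨⟨2, by omega⟩, h.1, h.2⟩
  · right; right; exact ⟨⟨3, by omega⟩, h.1, h.2⟩

lemma S0 (k : ℕ) : {v : Fin (5 * k + 5) | R k 0 v.val}.ncard ≤ 3 * k + 3 := by
  refine (ncard_le_of_val _ (Finset.Ico 1 (4 + 3 * k)) ?_).trans ?_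
  · intro v hv
    have hv' : R k 0 v.val := hv
    unfold R at hv'
    rw [Finset.mem_Ico]
    omega
  · rw [Nat.card_Ico]; omega

lemma S1 (k : ℕ) : {v : Fin (5 * k + 5) | R k 1 v.val}.ncard ≤ 3 * k + 1 := by
  refine (ncard_le_of_val _ (Finset.Ico 4 (4 + k) ∪ Finset.Ico (4 + 3 * k) (5 * k + 5)) ?_).trans ?_
  · intro v hv
    have hv' : R k 1 v.val := hv
    unfold R at hv'
    rw [Finset.mem_union, Finset.mem_Ico, Finset.mem_Ico]
    have := v.isLt
    omega
  · refine (Finset.card_union_le _ _).trans ?_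
    rw [Nat.card_Ico, Nat.card_Ico]; omega

lemma S2 (k : ℕ) : {v : Fin (5 * k + 5) | R k 2 v.val}.ncard ≤ 3 * k + 1 := by
  refine (ncard_le_of_val _ (Finset.Ico (4 + k) (4 + 2 * k) ∪
    Finset.Ico (4 + 3 * k) (5 * k + 5)) ?_).trans ?_
  · intro v hv
    have hv' : R k 2 v.val := hv
    unfold R at hv'
    rw [Finset.mem_union, Finset.mem_Ico, Finset.mem_Ico]
    have := v.isLt
    omega
  · refine (Finset.card_union_le _ _).trans ?_
    rw [Nat.card_Ico, Nat.card_Ico]; omega

lemma S3 (k : ℕ) : {v : Fin (5 * k + 5) | R k 3 v.val}.ncard ≤ 3 * k + 1 := by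
  refine (ncard_le_of_val _ (Finset.Ico (4 + 2 * k) (4 + 3 * k) ∪
    Finset.Ico (4 + 3 * k) (5 * k + 5)) ?_).trans ?_
  · intro v hv
    have hv' : R k 3 v.val := hv
    unfold R at hv'
    rw [Finset.mem_union, Finset.mem_Ico, Finset.mem_Ico]
    have := v.isLt
    omega
  · refine (Finset.card_union_le _ _).trans ?_
    rw [Nat.card_Ico, Nat.card_Ico]; omega

lemma ext_deg (k : ℕ) (u : Fin (5 * k + 5)) : ((ext k).neighborSet u).ncard ≤ 3 * k + 3 := by
  have hsub : (ext k).neighborSet u ⊆ {v | R k u.val v.val} ∪ {v | R k v.val u.val} := by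
    intro v hv
    exact hv
  refine (Set.ncard_le_ncard hsub (Set.toFinite _)).trans ((Set.ncard_union_le _ _).trans ?_)
  have hu := u.isLt
  by_cases h0 : u.val = 0
  · have h1 : {v : Fin (5 * k + 5) | R k v.val u.val}.ncard ≤ (∅ : Finset ℕ).card := by
      apply ncard_le_of_val
      intro v hv
      have hv' : R k v.val u.val := hv
      rw [h0] at hv'
      unfold R at hv'
      omega
    have h2 := S0 k
    rw [h0]
    rw [h0] at h1
    simp only [Finset.card_empty] at h1
    omega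
  by_cases h4 : u.val < 4
  · have h1 : {v : Fin (5 * k + 5) | R k v.val u.val}.ncard ≤ ({0} : Finset ℕ).card := by
      apply ncard_le_of_val
      intro v hv
      have hv' : R k v.val u.val := hv
      unfold R at hv'
      rw [Finset.mem_singleton]
      omega
    rw [Finset.card_singleton] at h1
    have h2 : {v : Fin (5 * k + 5) | R k u.val v.val}.ncard ≤ 3 * k + 1 := by
      have : u.val = 1 ∨ u.val = 2 ∨ u.val = 3 := by omega
      rcases this with h | h | h
      · rw [h]; exact S1 k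
      · rw [h]; exact S2 k
      · rw [h]; exact S3 k
    omega
  · have h1 : {v : Fin (5 * k + 5) | R k u.val v.val}.ncard ≤ (∅ : Finset ℕ).card := by
      apply ncard_le_of_val
      intro v hv
      have hv' : R k u.val v.val := hv
      unfold R at hv'
      omega
    rw [Finset.card_empty] at h1
    have h2 : {v : Fin (5 * k + 5) | R k v.val u.val}.ncard ≤ 3 := by
      by_cases h5 : u.val < 4 + 3 * k
      · by_cases h6 : u.val < 4 + k
        · refine (ncard_le_of_val _ {0, 1} ?_).trans (by decide)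
          intro v hv
          have hv' : R k v.val u.val := hv
          unfold R at hv'
          simp only [Finset.mem_insert, Finset.mem_singleton]
          omega
        · refine (ncard_le_of_val _ {0, 2, 3} ?_).trans (by decide)
          intro v hv
          have hv' : R k v.val u.val := hv
          unfold R at hv'
          simp only [Finset.mem_insert, Finset.mem_singleton]
          omega
      · refine (ncard_le_of_val _ {1, 2, 3} ?_).trans (by decide)
        intro v hv
        have hv' : R k v.val u.val := hv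
        unfold R at hv'
        simp only [Finset.mem_insert, Finset.mem_singleton]
        omega
    omega

lemma ext_edges (k : ℕ) : (ext k).edgeSet.ncard ≤ 12 * k + 6 := by
  let f : ℕ → Set (Sym2 (Fin (5 * k + 5))) := fun h =>
    {e | ∃ a b : Fin (5 * k + 5), a.val = h ∧ R k h b.val ∧ e = s(a, b)}
  have hsub : (ext k).edgeSet ⊆ f 0 ∪ (f 1 ∪ (f 2 ∪ f 3)) := by
    intro e
    induction e with
    | _ a b =>
      intro h
      have h' : R k a.val b.val ∨ R k b.val a.val := h
      have aux : ∀ a b : Fin (5 * k + 5), R k a.val b.val → s(a, b) ∈ f 0 ∪ (f 1 ∪ (f 2 ∪ f 3)) := by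
        intro a b hab
        have ha : a.val = 0 ∨ a.val = 1 ∨ a.val = 2 ∨ a.val = 3 := by
          unfold R at hab; omega
        rcases ha with h | h | h | h
        · left; exact ⟨a, b, h, h ▸ hab, rfl⟩
        · right; left; exact ⟨a, b, h, h ▸ hab, rfl⟩
        · right; right; left; exact ⟨a, b, h, h ▸ hab, rfl⟩
        · right; right; right; exact ⟨a, b, h, h ▸ hab, rfl⟩
      rcases h' with h' | h'
      · exact aux a b h'
      · rw [Sym2.eq_swap]; exact aux b a h'
  have hf : ∀ h (hh : h < 5 * k + 5), (f h).ncard ≤ {v : Fin (5 * k + 5) | R k h v.val}.ncard := by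
    intro h hh
    have : f h = (fun b => s((⟨h, hh⟩ : Fin (5 * k + 5)), b)) '' {v | R k h v.val} := by
      ext e
      simp only [f, Set.mem_ofPred_eq, Set.mem_image]
      constructor
      · rintro ⟨a, b, rfl, hb, rfl⟩
        exact ⟨b, hb, rfl⟩
      · rintro ⟨b, hb, rfl⟩
        exact ⟨_, b, rfl, hb, rfl⟩
    rw [this]
    exact Set.ncard_image_le (Set.toFinite _)
  have h1 := Set.ncard_le_ncard hsub (Set.toFinite _)
  have h2 := Set.ncard_union_le (f 0) (f 1 ∪ (f 2 ∪ f 3))
  have h3 := Set.ncard_union_le (f 1) (f 2 ∪ f 3)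
  have h4 := Set.ncard_union_le (f 2) (f 3)
  have g0 := (hf 0 (by omega)).trans (S0 k)
  have g1 := (hf 1 (by omega)).trans (S1 k)
  have g2 := (hf 2 (by omega)).trans (S2 k)
  have g3 := (hf 3 (by omega)).trans (S3 k)
  omega

end Pool.Agent.Work.MP_5980c2_co
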